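import Pool.Agent.Lib_helper12.HE.Defs
import Pool.Agent.Lib_helper57.PV.B1b

/-! Project HE (MP_b08f5f_an), block VL: a lower bound for the measure of high energy. -/

set_option autoImplicit false

namespace Pool.Agent.Lib_helper12.HE

open MeasureTheory Filter Topology Set
open scoped ComplexConjugate ENNReal
open Pool.Agent.Lib_helper25.PV (Conf vel Motion centre inertia NC VFlow)

noncomputable section

/-- the shear `z ↦ (z_j - z_r)` for `j ≠ o, r` -/
def VL_map {N : ℕ} (o r : Fin N) : Conf N ≃ₗ[ℝ] Conf N where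
  toFun z := fun j => if j = o ∨ j = r then z j else z j - z r
  map_add' x y := by
    funext j
    by_cases h : j = o ∨ j = r <;> simp [h]
    ring
  map_smul' c x := by
    funext j
    by_cases h : j = o ∨ j = r <;> simp [h, mul_sub]
  invFun z := fun j => if j = o ∨ j = r then z j else z j + z r
  left_inv z := by
    funext j
    by_cases h : j = o ∨ j = r <;> simp [h]
  right_inv z := by
    funext j
    by_cases h : j = o ∨ j = r <;> simp [h]

theorem VL_sum {N : ℕ} {M : Type*} [AddCommGroup M] [Module ℝ M] (o : Fin N) (a b : M) :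
    ∑ i, (if i = o then a else b) = a + ((N : ℝ) - 1) • b := by
  have h : ∀ i : Fin N, (if i = o then a else b) = b + (if i = o then a - b else 0) := by
    intro i
    split_ifs <;> simp
  simp_rw [h]
  rw [Finset.sum_add_distrib, Finset.sum_ite_eq' Finset.univ o, Finset.sum_const,
    Finset.card_univ, Fintype.card_fin, if_pos (Finset.mem_univ o), sub_smul, one_smul,
    ← Nat.cast_smul_eq_nsmul ℝ]
  abel

/-- the base point -/
def VL_base (N : ℕ) (o : Fin N) : Conf N := fun i =>
  if i = o then ((3 / 2 * Real.sqrt (N - 1) : ℝ) : ℂ) else ((-(3 / 2 * (Real.sqrt (N - 1))⁻¹) : ℝ) : ℂ)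

theorem VL_base_centre {N : ℕ} (hN : 3 ≤ N) (o : Fin N) : centre (VL_base N o) = 0 := by
  have hN' : (3 : ℝ) ≤ N := by exact_mod_cast hN
  have hs : 0 < Real.sqrt ((N : ℝ) - 1) := Real.sqrt_pos.2 (by linarith)
  have hs2 : Real.sqrt ((N : ℝ) - 1) ^ 2 = N - 1 := Real.sq_sqrt (by linarith)
  unfold centre VL_base
  rw [VL_sum, Complex.real_smul, ← Complex.ofReal_mul, ← Complex.ofReal_add]
  have : ∀ s : ℝ, 0 < s → s ^ 2 = (N : ℝ) - 1 →
      3 / 2 * s + ((N : ℝ) - 1) * -(3 / 2 * s⁻¹) = 0 := by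
    intro s h1 h2
    rw [← h2]
    field_simp
    ring
  rw [this _ hs hs2]
  simp

theorem VL_base_rad {N : ℕ} (hN : 3 ≤ N) (o : Fin N) : rad (VL_base N o) = 3 / 2 := by
  have hN' : (3 : ℝ) ≤ N := by exact_mod_cast hN
  have hs : 0 < Real.sqrt ((N : ℝ) - 1) := Real.sqrt_pos.2 (by linarith)
  have hs2 : Real.sqrt ((N : ℝ) - 1) ^ 2 = N - 1 := Real.sq_sqrt (by linarith)
  unfold rad
  have h1 : ∀ i, ‖VL_base N o i - centre (VL_base N o)‖ ^ 2 =
      if i = o then 9 / 4 * ((N : ℝ) - 1) else 9 / 4 * ((N : ℝ) - 1)⁻¹ := by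
    intro i
    rw [VL_base_centre hN, sub_zero]
    unfold VL_base
    split_ifs with h
    · rw [Complex.norm_real, Real.norm_eq_abs, sq_abs, mul_pow, hs2]
      norm_num
    · rw [Complex.norm_real, Real.norm_eq_abs, sq_abs, neg_sq, mul_pow, inv_pow, hs2]
      norm_num
  simp_rw [h1]
  rw [VL_sum, smul_eq_mul]
  have h2 : (9 / 4 * ((N : ℝ) - 1) + ((N : ℝ) - 1) * (9 / 4 * ((N : ℝ) - 1)⁻¹)) / N =
      (3 / 2) ^ 2 := by
    have h3 : (N : ℝ) - 1 ≠ 0 := by linarith
    have h4 : (N : ℝ) ≠ 0 := by linarith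
    field_simp
    ring
  rw [h2, Real.sqrt_sq (by norm_num)]

theorem VL_centre_cont (N : ℕ) : Continuous (centre (N := N)) := by
  unfold centre
  fun_prop

theorem VL_rad_cont (N : ℕ) : Continuous (rad (N := N)) := by
  unfold rad
  have := VL_centre_cont N
  fun_prop

theorem VL_open {N : ℕ} (hN : 3 ≤ N) (o : Fin N) : ∃ η > 0, ∀ z : Conf N,
    ‖z - VL_base N o‖ < η → z ∈ shell N 1 := by
  have h1 : {z : Conf N | ‖centre z‖ < 1 ∧ 1 < rad z ∧ rad z < 2} ∈ 𝓝 (VL_base N o) := by
    refine IsOpen.mem_nhds ?_ ?_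
    · refine (isOpen_lt (VL_centre_cont N).norm continuous_const).inter
        ((isOpen_lt continuous_const (VL_rad_cont N)).inter
          (isOpen_lt (VL_rad_cont N) continuous_const))
    · refine ⟨?_, ?_, ?_⟩
      · rw [VL_base_centre hN, norm_zero]
        norm_num
      · rw [VL_base_rad hN]
        norm_num
      · rw [VL_base_rad hN]
        norm_num
  obtain ⟨η, hη, h2⟩ := Metric.mem_nhds_iff.1 h1
  refine ⟨η, hη, fun z hz => ?_⟩
  have h3 := h2 (show z ∈ Metric.ball (VL_base N o) η by rwa [Metric.mem_ball, dist_eq_norm])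
  exact ⟨h3.1.le, h3.2.1.le, by linarith [h3.2.2]⟩

/-- the normalised configuration is on `Γ_N` -/
theorem VL_gam {N : ℕ} (hN : 3 ≤ N) {z : Conf N} (hz : Function.Injective z)
    (hr : 0 < rad z) : nrm z ∈ Gam N := by
  have hN' : (3 : ℝ) ≤ N := by exact_mod_cast hN
  have hNc : (N : ℂ) ≠ 0 := by
    have : (N : ℝ) ≠ 0 := by linarith
    exact_mod_cast this
  have hrc : ((rad z : ℝ) : ℂ)⁻¹ ≠ 0 := inv_ne_zero (Complex.ofReal_ne_zero.2 hr.ne')
  have h0 : ∑ i, (z i - centre z) = 0 := by
    rw [Finset.sum_sub_distrib, Finset.sum_const, Finset.card_univ, Fintype.card_fin,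
      nsmul_eq_mul]
    unfold centre
    field_simp
    ring
  refine ⟨?_, ?_, ?_⟩
  · intro i j hij
    have h1 : z i - centre z = z j - centre z := mul_left_cancel₀ hrc hij
    exact hz (sub_left_injective h1)
  · unfold nrm
    rw [← Finset.mul_sum, h0, mul_zero]
  · have h1 : ∀ i, ‖nrm z i‖ ^ 2 = (rad z ^ 2)⁻¹ * ‖z i - centre z‖ ^ 2 := by
      intro i
      unfold nrm
      rw [norm_mul, norm_inv, Complex.norm_real, Real.norm_eq_abs, abs_of_pos hr, mul_pow,
        inv_pow]
    simp_rw [h1]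
    rw [← Finset.mul_sum]
    have h2 : rad z ^ 2 = (∑ i, ‖z i - centre z‖ ^ 2) / N :=
      Real.sq_sqrt (by positivity)
    have h3 : (∑ i, ‖z i - centre z‖ ^ 2) ≠ 0 := by
      intro h4
      rw [h4, zero_div] at h2
      exact (pow_pos hr 2).ne' h2
    rw [h2]
    field_simp

theorem VL_norm_le {N : ℕ} {y : Conf N} (hy : y ∈ Gam N) (i : Fin N) : ‖y i‖ ≤ Real.sqrt N := by
  have hN : 0 < (N : ℝ) := by
    have := i.pos
    exact_mod_cast this
  have h1 : ‖y i‖ ^ 2 ≤ N := by
    have h2 := hy.2.2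
    rw [div_eq_one_iff_eq hN.ne'] at h2
    rw [← h2]
    exact Finset.single_le_sum (f := fun i => ‖y i‖ ^ 2) (fun _ _ => by positivity)
      (Finset.mem_univ i)
  exact Real.le_sqrt_of_sq_le h1

/-- energy of a cluster -/
theorem VL_ham {N : ℕ} (hN : 3 ≤ N) (o : Fin N) {y : Conf N} (hy : y ∈ Gam N) {D : ℝ}
    (hD : ∀ i j, i ≠ o → j ≠ o → ‖y i - y j‖ ≤ D) :
    -(1 / (4 * Real.pi)) * (((N : ℝ) - 1) * (N - 2) * Real.log D +
      2 * (N - 1) * Real.log (2 * Real.sqrt N)) ≤ ham y := by
  have hN' : (3 : ℝ) ≤ N := by exact_mod_cast hN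
  unfold ham
  have hpi := Real.pi_pos
  have hneg : -(1 / (4 * Real.pi)) ≤ 0 := by
    have : 0 < 1 / (4 * Real.pi) := by positivity
    linarith
  refine mul_le_mul_of_nonpos_left ?_ hneg
  have hlog : ∀ i j : Fin N, j ∈ Finset.univ.erase i → Real.log ‖y i - y j‖ ≤
      if i = o ∨ j = o then Real.log (2 * Real.sqrt N) else Real.log D := by
    intro i j hj
    have hij : i ≠ j := fun h => (Finset.ne_of_mem_erase hj) h.symm
    have hpos : 0 < ‖y i - y j‖ := norm_pos_iff.2 (sub_ne_zero.2 fun h => hij (hy.1 h))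
    split_ifs with h
    · refine Real.log_le_log hpos ((norm_sub_le _ _).trans ?_)
      linarith [VL_norm_le hy i, VL_norm_le hy j]
    · rw [not_or] at h
      exact Real.log_le_log hpos (hD i j h.1 h.2)
  refine (Finset.sum_le_sum fun i _ => Finset.sum_le_sum fun j hj => hlog i j hj).trans ?_
  refine le_of_eq ?_
  set a := Real.log (2 * Real.sqrt N)
  set b := Real.log D
  have hrow : ∀ i : Fin N, ∑ j ∈ Finset.univ.erase i, (if i = o ∨ j = o then a else b) =
      if i = o then ((N : ℝ) - 1) * a else a + (N - 2) * b := by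
    intro i
    rw [Finset.sum_erase_eq_sub (Finset.mem_univ i)]
    by_cases h : i = o
    · simp only [h, true_or, if_true]
      rw [Finset.sum_const, Finset.card_univ, Fintype.card_fin, nsmul_eq_mul]
      ring
    · simp only [h, false_or, if_false]
      rw [VL_sum, smul_eq_mul]
      ring
  simp_rw [hrow]
  rw [VL_sum, smul_eq_mul]
  ring

theorem VL_ball (a : ℂ) {r : ℝ} (hr : 0 ≤ r) :
    volume (Metric.ball a r) = ENNReal.ofReal (r ^ 2 * Real.pi) := by
  rw [Complex.volume_ball, ENNReal.ofReal_mul (by positivity), ENNReal.ofReal_pow hr,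
    ← NNReal.coe_real_pi, ENNReal.ofReal_coe_nnreal]

theorem VL_lower (N : ℕ) (hN : 3 ≤ N) : ∃ c > 0, ∀ E : ℝ, 0 ≤ E →
    ENNReal.ofReal (c * Real.exp (-(8 * Real.pi / (N - 1) * E))) ≤ sig N (Hi N E) := by
  have hN' : (3 : ℝ) ≤ N := by exact_mod_cast hN
  have hpi := Real.pi_pos
  have hNpos : 0 < N := by omega
  -- two indices
  let r : Fin N := ⟨0, hNpos⟩
  let o : Fin N := ⟨1, by omega⟩
  have hro : r ≠ o := by
    intro h
    have := congrArg Fin.val h
    simp [r, o] at this
  obtain ⟨η, hη, hsh⟩ := VL_open hN o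
  set d0 : ℝ := min (η / 2) (1 / (8 * N)) with hd0
  have hd0pos : 0 < d0 := lt_min (by positivity) (by positivity)
  have hd0η : d0 ≤ η / 2 := min_le_left _ _
  have hd0N : d0 ≤ 1 / (8 * N) := min_le_right _ _
  set L : Conf N →ₗ[ℝ] Conf N := (VL_map o r).toLinearMap with hL
  have hdet : LinearMap.det L ≠ 0 := (LinearEquiv.isUnit_det' (VL_map o r)).ne_zero
  set c : ℝ := |(LinearMap.det L)⁻¹| * ((η / 2) ^ 2 * Real.pi) ^ 2 *
    (d0 ^ 2 * Real.pi) ^ (N - 2) with hc
  have hcpos : 0 < c := by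
    have : 0 < |(LinearMap.det L)⁻¹| := abs_pos.2 (inv_ne_zero hdet)
    positivity
  refine ⟨c, hcpos, fun E hE => ?_⟩
  -- the size of the cluster
  set x : ℝ := 4 * Real.pi / ((N - 1) * (N - 2)) * E with hx
  have hN1 : (0 : ℝ) < N - 1 := by linarith
  have hN2 : (0 : ℝ) < N - 2 := by linarith
  have hx0 : 0 ≤ x := by positivity
  set d : ℝ := d0 * Real.exp (-x) with hd
  have hdpos : 0 < d := by positivity
  have hdd0 : d ≤ d0 := by
    have : Real.exp (-x) ≤ 1 := Real.exp_le_one_iff.2 (by linarith)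
    calc d = d0 * Real.exp (-x) := rfl
      _ ≤ d0 * 1 := mul_le_mul_of_nonneg_left this hd0pos.le
      _ = d0 := mul_one _
  -- the set
  set s : Set (Conf N) := Set.univ.pi fun j : Fin N =>
    if j = o ∨ j = r then Metric.ball (VL_base N o j) (η / 2) else Metric.ball 0 d with hs
  have hvol : volume (L ⁻¹' s) = ENNReal.ofReal (c * Real.exp (-(8 * Real.pi / (N - 1) * E))) := by
    rw [Measure.addHaar_preimage_linearMap volume hdet, hs, volume_pi, Measure.pi_pi]
    have h1 : ∀ j : Fin N, volume (if j = o ∨ j = r then Metric.ball (VL_base N o j) (η / 2)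
        else Metric.ball (0 : ℂ) d) =
        ENNReal.ofReal (if j = o ∨ j = r then (η / 2) ^ 2 * Real.pi else d ^ 2 * Real.pi) := by
      intro j
      split_ifs
      · exact VL_ball _ (by positivity)
      · exact VL_ball _ hdpos.le
    simp_rw [h1]
    rw [← ENNReal.ofReal_prod_of_nonneg (fun j _ => by split_ifs <;> positivity),
      ← ENNReal.ofReal_mul (abs_nonneg _)]
    congr 1
    have h2 : ∏ j : Fin N, (if j = o ∨ j = r then (η / 2) ^ 2 * Real.pi else d ^ 2 * Real.pi) =
        ((η / 2) ^ 2 * Real.pi) ^ 2 * (d ^ 2 * Real.pi) ^ (N - 2) := by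
      rw [Finset.prod_ite, Finset.prod_const, Finset.prod_const]
      have h3 : (Finset.univ.filter fun j : Fin N => j = o ∨ j = r) = {o, r} := by
        ext j
        simp
      have h4 : (Finset.univ.filter fun j : Fin N => j = o ∨ j = r).card = 2 := by
        rw [h3, Finset.card_pair hro.symm]
      have h5 := Finset.card_filter_add_card_filter_not (s := (Finset.univ : Finset (Fin N)))
        (fun j : Fin N => j = o ∨ j = r)
      rw [h4, Finset.card_univ, Fintype.card_fin] at h5
      have h6 : (Finset.univ.filter fun j : Fin N => ¬ (j = o ∨ j = r)).card = N - 2 := by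
        omega
      rw [h4, h6]
    rw [h2, hc]
    have h7 : (d ^ 2 * Real.pi) ^ (N - 2) = (d0 ^ 2 * Real.pi) ^ (N - 2) *
        Real.exp (-(8 * Real.pi / (N - 1) * E)) := by
      rw [hd, mul_pow d0, mul_assoc, mul_comm (Real.exp (-x) ^ 2), ← mul_assoc, mul_pow]
      congr 1
      rw [← pow_mul, ← Real.exp_nat_mul]
      congr 1
      rw [hx]
      push_cast [Nat.cast_sub (show 2 ≤ N by omega)]
      field_simp
      ring
    rw [h7]
    ring
  rw [← hvol]
  unfold sig
  refine measure_mono_ae ?_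
  filter_upwards [Pool.Agent.Lib_helper25.PV.B1b_ae N] with z hz hzs
  -- membership
  have hzs' : ∀ j : Fin N, (L z) j ∈
      (if j = o ∨ j = r then Metric.ball (VL_base N o j) (η / 2) else Metric.ball (0 : ℂ) d) :=
    fun j => hzs j (Set.mem_univ j)
  have hLz : ∀ j, (L z) j = if j = o ∨ j = r then z j else z j - z r := fun j => rfl
  have hzr : ‖z r - VL_base N o r‖ < η / 2 := by
    have := hzs' r
    rw [hLz, if_pos (Or.inr rfl), if_pos (Or.inr rfl), Metric.mem_ball, dist_eq_norm] at this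
    exact this
  have hzo : ‖z o - VL_base N o o‖ < η / 2 := by
    have := hzs' o
    rw [hLz, if_pos (Or.inl rfl), if_pos (Or.inl rfl), Metric.mem_ball, dist_eq_norm] at this
    exact this
  have hzj : ∀ j, j ≠ o → ‖z j - z r‖ < d := by
    intro j hj
    by_cases hjr : j = r
    · rw [hjr, sub_self, norm_zero]
      exact hdpos
    · have := hzs' j
      rw [hLz, if_neg (by tauto), if_neg (by tauto), mem_ball_zero_iff] at this
      exact this
  have hbase : ∀ j, j ≠ o → VL_base N o j = VL_base N o r := by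
    intro j hj
    unfold VL_base
    rw [if_neg hj, if_neg hro]
  have hclose : ‖z - VL_base N o‖ < η := by
    rw [pi_norm_lt_iff hη]
    intro j
    rw [Pi.sub_apply]
    by_cases hj : j = o
    · rw [hj]
      linarith
    · rw [hbase j hj]
      calc ‖z j - VL_base N o r‖ = ‖(z j - z r) + (z r - VL_base N o r)‖ := by
            congr 1; ring
        _ ≤ ‖z j - z r‖ + ‖z r - VL_base N o r‖ := norm_add_le _ _
        _ < η := by linarith [hzj j hj]
  have hshell := hsh z hclose
  have hrad : 0 < rad z := lt_of_lt_of_le one_pos hshell.2.1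
  have hgam := VL_gam hN hz hrad
  refine ⟨hshell, hgam, ?_⟩
  refine le_trans ?_ (VL_ham hN o hgam (D := 2 * d) ?_)
  · have h1 : Real.log (2 * d) = Real.log (2 * d0) - x := by
      rw [hd, ← mul_assoc, Real.log_mul (by positivity) (Real.exp_pos _).ne', Real.log_exp]
      ring
    have h2 : Real.log (2 * d0) + Real.log (4 * N) ≤ 0 := by
      rw [← Real.log_mul (by positivity) (by positivity)]
      refine Real.log_nonpos (by positivity) ?_
      have h3 : 2 * d0 * (4 * N) ≤ 2 * (1 / (8 * N)) * (4 * N) := by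
        refine mul_le_mul_of_nonneg_right ?_ (by positivity)
        linarith
      have h4 : 2 * (1 / (8 * (N : ℝ))) * (4 * N) = 1 := by
        field_simp
        norm_num
      linarith
    have h3 : 2 * Real.log (2 * Real.sqrt N) = Real.log (4 * N) := by
      rw [← Real.log_rpow (by positivity)]
      congr 1
      rw [Real.rpow_two, mul_pow, Real.sq_sqrt (by positivity)]
      norm_num
    have h4 : Real.log (2 * d0) ≤ 0 := by
      have : 0 ≤ Real.log (4 * N) := Real.log_nonneg (by linarith)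
      linarith
    have h5 : ((N : ℝ) - 1) * (N - 2) * Real.log (2 * d) +
        2 * (N - 1) * Real.log (2 * Real.sqrt N) ≤ -(4 * Real.pi * E) := by
      rw [h1]
      have h6 : ((N : ℝ) - 1) * (N - 2) * x = 4 * Real.pi * E := by
        rw [hx]
        field_simp
      have h7 : 2 * ((N : ℝ) - 1) * Real.log (2 * Real.sqrt N) =
          (N - 1) * Real.log (4 * N) := by
        rw [← h3]
        ring
      have h8 : ((N : ℝ) - 2) * Real.log (2 * d0) ≤ Real.log (2 * d0) := by
        nlinarith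
      have h9 : ((N : ℝ) - 1) * ((N - 2) * Real.log (2 * d0) + Real.log (4 * N)) ≤ 0 :=
        mul_nonpos_of_nonneg_of_nonpos hN1.le (by linarith)
      rw [mul_sub, h6, h7]
      nlinarith [h9]
    have h10 : -(1 / (4 * Real.pi)) * -(4 * Real.pi * E) = E := by
      field_simp
    calc E = -(1 / (4 * Real.pi)) * -(4 * Real.pi * E) := h10.symm
      _ ≤ _ := mul_le_mul_of_nonpos_left h5 (by
          have : 0 < 1 / (4 * Real.pi) := by positivity
          linarith)
  · intro i j hi hj
    have h1 : nrm z i - nrm z j = ((rad z : ℝ) : ℂ)⁻¹ * (z i - z j) := by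
      unfold nrm
      ring
    rw [h1, norm_mul, norm_inv, Complex.norm_real, Real.norm_eq_abs, abs_of_pos hrad]
    have h2 : (rad z)⁻¹ ≤ 1 := inv_le_one_of_one_le₀ hshell.2.1
    have h3 : ‖z i - z j‖ ≤ 2 * d := by
      calc ‖z i - z j‖ = ‖(z i - z r) - (z j - z r)‖ := by congr 1; ring
        _ ≤ ‖z i - z r‖ + ‖z j - z r‖ := norm_sub_le _ _
        _ ≤ 2 * d := by linarith [hzj i hi, hzj j hj]
    calc (rad z)⁻¹ * ‖z i - z j‖ ≤ 1 * ‖z i - z j‖ :=
          mul_le_mul_of_nonneg_right h2 (norm_nonneg _)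
      _ ≤ 2 * d := by linarith

end

end Pool.Agent.Lib_helper12.HE
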